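import Pool.Agent.U333.Doyle.Ring

/-! # From flowers of circles to half angles -/

namespace Pool.Agent.U333.Doyle

open Real ComplexConjugate

/-- Half of the angle at the centre of a circle of radius `r` in the triangle formed by the centres
of three mutually tangent circles of radii `r`, `a`, `b`. -/
noncomputable def hang (r a b : ℝ) : ℝ := arctan (√(a * b / (r * (r + a + b))))

theorem hang_pos {r a b : ℝ} (hr : 0 < r) (ha : 0 < a) (hb : 0 < b) : 0 < hang r a b := by
  unfold hang
  rw [← arctan_zero]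
  exact arctan_strictMono (by positivity)

theorem hang_lt (r a b : ℝ) : hang r a b < π / 2 := arctan_lt_pi_div_two _

theorem cos_hang_sq {r a b : ℝ} (hr : 0 < r) (ha : 0 < a) (hb : 0 < b) :
    cos (hang r a b) ^ 2 = r * (r + a + b) / ((r + a) * (r + b)) := by
  unfold hang
  rw [cos_sq_arctan, sq_sqrt (by positivity)]
  field_simp
  ring

theorem sin_hang_sq {r a b : ℝ} (hr : 0 < r) (ha : 0 < a) (hb : 0 < b) :
    sin (hang r a b) ^ 2 = a * b / ((r + a) * (r + b)) := by
  rw [sin_sq, cos_hang_sq hr ha hb]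
  field_simp
  ring

theorem sin_hang {r a b : ℝ} (hr : 0 < r) (ha : 0 < a) (hb : 0 < b) :
    sin (hang r a b) = √(a / (r + a)) * √(b / (r + b)) := by
  have h1 : 0 ≤ sin (hang r a b) := sin_nonneg_of_nonneg_of_le_pi (hang_pos hr ha hb).le
    (by linarith [hang_lt r a b, pi_pos])
  rw [← sqrt_mul (by positivity), ← sqrt_sq h1, sin_hang_sq hr ha hb]
  congr 1
  field_simp

theorem cos_two_hang {r a b : ℝ} (hr : 0 < r) (ha : 0 < a) (hb : 0 < b) :
    cos (2 * hang r a b) = 1 - 2 * (a * b) / ((r + a) * (r + b)) := by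
  rw [cos_two_mul, cos_hang_sq hr ha hb]
  field_simp
  ring

/-- The angle at the centre of the circle of radius `r` in the triangle formed by the centres of
three mutually tangent circles of radii `r`, `a`, `b`, by the law of cosines. -/
noncomputable def faceAngle (r a b : ℝ) : ℝ :=
  arccos (((r + a) ^ 2 + (r + b) ^ 2 - (a + b) ^ 2) / (2 * (r + a) * (r + b)))

theorem faceAngle_eq {r a b : ℝ} (hr : 0 < r) (ha : 0 < a) (hb : 0 < b) :
    faceAngle r a b = 2 * hang r a b := by
  unfold faceAngle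
  have h : ((r + a) ^ 2 + (r + b) ^ 2 - (a + b) ^ 2) / (2 * (r + a) * (r + b)) =
      cos (2 * hang r a b) := by
    rw [cos_two_hang hr ha hb]
    field_simp
    ring
  rw [h, arccos_cos]
  · linarith [hang_pos hr ha hb]
  · linarith [hang_lt r a b]

/-- The distance condition for two petals of radii `a`, `b` at angle `2 y`. -/
theorem petals_iff {r a b y : ℝ} (hr : 0 < r) (ha : 0 < a) (hb : 0 < b)
    (h : (a + b) ^ 2 ≤ (r + a) ^ 2 + (r + b) ^ 2 - 2 * (r + a) * (r + b) * cos (2 * y)) :
    √(a / (r + a)) * √(b / (r + b)) ≤ |sin y| := by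
  rw [← sqrt_mul (by positivity)]
  apply sqrt_le_iff.2 ⟨abs_nonneg _, ?_⟩
  rw [sq_abs]
  have h1 : cos (2 * y) = 1 - 2 * sin y ^ 2 := by rw [cos_two_mul, cos_sq']; ring
  rw [h1] at h
  rw [div_mul_div_comm, div_le_iff₀ (by positivity)]
  nlinarith

/-- Norm of the difference of two vectors in polar coordinates. -/
theorem norm_polar (e : ℂ) (he : ‖e‖ = 1) (p q t : ℝ) :
    ‖(p : ℂ) * (Complex.exp ((t : ℂ) * Complex.I) * e) - q * e‖ ^ 2 =
      p ^ 2 + q ^ 2 - 2 * p * q * cos t := by
  have h1 : (p : ℂ) * (Complex.exp ((t : ℂ) * Complex.I) * e) - q * e =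
      (p * Complex.exp ((t : ℂ) * Complex.I) - q) * e := by ring
  rw [h1, norm_mul, he, mul_one, ← Complex.normSq_eq_norm_sq, Complex.exp_mul_I,
    ← Complex.ofReal_cos, ← Complex.ofReal_sin, Complex.normSq_apply]
  simp only [Complex.sub_re, Complex.mul_re, Complex.ofReal_re, Complex.add_re, Complex.I_re,
    mul_zero, Complex.ofReal_im, Complex.I_im, mul_one, sub_self, add_zero, Complex.add_im,
    Complex.mul_im, zero_add, zero_mul, sub_zero, Complex.sub_im]
  nlinarith [sin_sq_add_cos_sq t]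

/-- The rotation by the face angle. -/
theorem next_petal {r a b : ℝ} (hr : 0 < r) (ha : 0 < a) (hb : 0 < b) {z w : ℂ}
    (hz : ‖z‖ = r + a) (hw : ‖w‖ = r + b) (hzw : ‖z - w‖ = a + b)
    (ho : 0 < (w * conj z).im) :
    w / ((r + b : ℝ) : ℂ) =
      Complex.exp (((2 * hang r a b : ℝ) : ℂ) * Complex.I) * (z / ((r + a : ℝ) : ℂ)) := by
  have hra : (0 : ℝ) < r + a := by linarith
  have hrb : (0 : ℝ) < r + b := by linarith
  have hz2 : z.re ^ 2 + z.im ^ 2 = (r + a) ^ 2 := by
    rw [← hz, ← Complex.normSq_eq_norm_sq, Complex.normSq_apply]; ring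
  have hw2 : w.re ^ 2 + w.im ^ 2 = (r + b) ^ 2 := by
    rw [← hw, ← Complex.normSq_eq_norm_sq, Complex.normSq_apply]; ring
  have hzw2 : (z.re - w.re) ^ 2 + (z.im - w.im) ^ 2 = (a + b) ^ 2 := by
    rw [← hzw, ← Complex.normSq_eq_norm_sq, Complex.normSq_apply]
    simp only [Complex.sub_re, Complex.sub_im]; ring
  set C := cos (2 * hang r a b) with hC
  set S := sin (2 * hang r a b) with hS
  have hre : w.re * z.re + w.im * z.im = (r + a) * (r + b) * C := by
    rw [hC, cos_two_hang hr ha hb]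
    field_simp
    nlinarith
  have him : w.im * z.re - w.re * z.im = (r + a) * (r + b) * S := by
    have h1 : (w * conj z).im = w.im * z.re - w.re * z.im := by
      rw [Complex.mul_im, Complex.conj_re, Complex.conj_im]; ring
    rw [h1] at ho
    have hSpos : 0 < S := sin_pos_of_pos_of_lt_pi (by linarith [hang_pos hr ha hb])
      (by linarith [hang_lt r a b])
    have h2 : (w.im * z.re - w.re * z.im) ^ 2 = ((r + a) * (r + b) * S) ^ 2 := by
      have h3 : (w.im * z.re - w.re * z.im) ^ 2 =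
          (z.re ^ 2 + z.im ^ 2) * (w.re ^ 2 + w.im ^ 2) - (w.re * z.re + w.im * z.im) ^ 2 := by
        ring
      have h4 : S ^ 2 = 1 - C ^ 2 := sin_sq _
      rw [h3, hz2, hw2, hre]
      linear_combination (-(r + a) ^ 2 * (r + b) ^ 2) * h4
    exact (pow_left_inj₀ ho.le (by positivity) two_ne_zero).1 h2
  have hmul : w * conj z = ((r + a : ℝ) : ℂ) * ((r + b : ℝ) : ℂ) *
      Complex.exp (((2 * hang r a b : ℝ) : ℂ) * Complex.I) := by
    rw [Complex.exp_mul_I, ← Complex.ofReal_cos, ← Complex.ofReal_sin, ← hC, ← hS]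
    apply Complex.ext
    · rw [Complex.mul_re, Complex.conj_re, Complex.conj_im]
      simp only [Complex.mul_re, Complex.ofReal_re, Complex.ofReal_im, Complex.add_re,
        Complex.I_re, Complex.I_im, Complex.mul_im, Complex.add_im]
      linarith
    · rw [Complex.mul_im, Complex.conj_re, Complex.conj_im]
      simp only [Complex.mul_re, Complex.ofReal_re, Complex.ofReal_im, Complex.add_re,
        Complex.I_re, Complex.I_im, Complex.mul_im, Complex.add_im]
      linarith
  have hzz : conj z * z = ((r + a : ℝ) : ℂ) ^ 2 := by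
    rw [mul_comm, Complex.mul_conj, Complex.normSq_eq_norm_sq, hz]
    push_cast
    ring
  have ha' : ((r + a : ℝ) : ℂ) ≠ 0 := by exact_mod_cast hra.ne'
  have hb' : ((r + b : ℝ) : ℂ) ≠ 0 := by exact_mod_cast hrb.ne'
  have h5 : w * (conj z * z) = ((r + a : ℝ) : ℂ) * ((r + b : ℝ) : ℂ) *
      Complex.exp (((2 * hang r a b : ℝ) : ℂ) * Complex.I) * z := by
    rw [← mul_assoc, hmul]
  rw [hzz] at h5
  field_simp
  have h6 : ((r + a : ℝ) : ℂ) * (w * ((r + a : ℝ) : ℂ)) = ((r + a : ℝ) : ℂ) *
      (((r + b : ℝ) : ℂ) * Complex.exp (((2 * hang r a b : ℝ) : ℂ) * Complex.I) * z) := by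
    linear_combination h5
  have := mul_left_cancel₀ ha' h6
  convert this using 2 <;> push_cast <;> ring_nf

/-- A univalent flower: six circles with radii `a k` and centres `z k`, in cyclic order around a
circle of radius `r` centred at `0` and tangent to it, consecutive circles being tangent and
all circles having disjoint interiors. -/
structure IsFlower (r : ℝ) (a : Fin 6 → ℝ) (z : Fin 6 → ℂ) : Prop where
  r_pos : 0 < r
  a_pos : ∀ k, 0 < a k
  norm_z : ∀ k, ‖z k‖ = r + a k
  tangent : ∀ k, ‖z k - z (k + 1)‖ = a k + a (k + 1)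
  oriented : ∀ k, 0 < (z (k + 1) * conj (z k)).im
  disj : ∀ j k, j ≠ k → a j + a k ≤ ‖z j - z k‖

theorem IsFlower.half {r : ℝ} {a : Fin 6 → ℝ} {z : Fin 6 → ℂ} (h : IsFlower r a z) :
    HalfFlower (fun k => √(a k / (r + a k))) (fun k => hang r (a k) (a (k + 1))) := by
  have hr := h.r_pos
  have ha := h.a_pos
  set x : Fin 6 → ℝ := fun k => hang r (a k) (a (k + 1)) with hx
  set e : Fin 6 → ℂ := fun k => z k / ((r + a k : ℝ) : ℂ) with he
  have hne : ∀ k, ((r + a k : ℝ) : ℂ) ≠ 0 := fun k => by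
    have : 0 < r + a k := by linarith [ha k]
    exact_mod_cast this.ne'
  have hnorm : ∀ k, ‖e k‖ = 1 := by
    intro k
    have h1 : 0 < r + a k := by linarith [ha k]
    simp only [he]
    rw [norm_div, h.norm_z, Complex.norm_real, Real.norm_of_nonneg h1.le, div_self h1.ne']
  have hnext : ∀ k, e (k + 1) = Complex.exp (((2 * x k : ℝ) : ℂ) * Complex.I) * e k := fun k =>
    next_petal hr (ha k) (ha (k+1)) (h.norm_z k) (h.norm_z (k+1)) (h.tangent k) (h.oriented k)
  have hz : ∀ k, z k = ((r + a k : ℝ) : ℂ) * e k := by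
    intro k
    simp only [he]
    rw [mul_div_cancel₀ _ (hne k)]
  have hn2 : ∀ k, e (k + 2) = Complex.exp (((2 * (x k + x (k+1)) : ℝ) : ℂ) * Complex.I) * e k := by
    intro k
    rw [show k + 2 = k + 1 + 1 by rw [add_assoc]; rfl, hnext, hnext, ← mul_assoc,
      ← Complex.exp_add]
    congr 2
    push_cast
    ring
  have hn3 : ∀ k, e (k + 3) =
      Complex.exp (((2 * (x k + x (k+1) + x (k+2)) : ℝ) : ℂ) * Complex.I) * e k := by
    intro k
    rw [show k + 3 = k + 2 + 1 by rw [add_assoc]; rfl, hnext, hn2, ← mul_assoc,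
      ← Complex.exp_add]
    congr 2
    push_cast
    ring
  have hn4 : ∀ k, e (k + 4) =
      Complex.exp (((2 * (x k + x (k+1) + x (k+2) + x (k+3)) : ℝ) : ℂ) * Complex.I) * e k := by
    intro k
    rw [show k + 4 = k + 3 + 1 by rw [add_assoc]; rfl, hnext, hn3, ← mul_assoc,
      ← Complex.exp_add]
    congr 2
    push_cast
    ring
  have hpet : ∀ (k j : Fin 6) (y : ℝ), j ≠ k →
      e j = Complex.exp (((2 * y : ℝ) : ℂ) * Complex.I) * e k →
      √(a k / (r + a k)) * √(a j / (r + a j)) ≤ |sin y| := by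
    intro k j y hjk hj
    apply petals_iff hr (ha k) (ha j)
    have h1 := h.disj j k hjk
    have h2 : ‖z j - z k‖ ^ 2 = (r + a j) ^ 2 + (r + a k) ^ 2 -
        2 * (r + a j) * (r + a k) * cos (2 * y) := by
      rw [hz j, hz k, hj]
      exact norm_polar (e k) (hnorm k) _ _ _
    have h3 : (a j + a k) ^ 2 ≤ ‖z j - z k‖ ^ 2 :=
      pow_le_pow_left₀ (by linarith [ha j, ha k]) h1 2
    rw [h2] at h3
    linarith
  refine ⟨?_, ?_, ?_, ?_, ?_, ?_, ?_, ?_, ?_⟩
  · intro k
    have := ha k
    positivity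
  · intro k
    have := ha k
    rw [sqrt_lt' one_pos, one_pow, div_lt_one (by positivity)]
    linarith
  · exact fun k => hang_pos hr (ha k) (ha (k+1))
  · exact fun k => hang_lt _ _ _
  · exact fun k => sin_hang hr (ha k) (ha (k+1))
  · intro k
    exact hpet k (k+2) _ (by revert k; decide) (hn2 k)
  · intro k
    exact hpet k (k+3) _ (by revert k; decide) (hn3 k)
  · intro k
    exact hpet k (k+4) _ (by revert k; decide) (hn4 k)
  · have hn5 : e (0 + 4 + 1 + 1) =
        Complex.exp (((2 * (x 0 + x 1 + x 2 + x 3 + x 4 + x 5) : ℝ) : ℂ) * Complex.I) * e 0 := by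
      rw [hnext, hnext, hn4 0, ← mul_assoc, ← mul_assoc, ← Complex.exp_add, ← Complex.exp_add]
      congr 2
      have e1 : (0 : Fin 6) + 1 = 1 := rfl
      have e2 : (0 : Fin 6) + 2 = 2 := rfl
      have e3 : (0 : Fin 6) + 3 = 3 := rfl
      have e4 : (0 : Fin 6) + 4 = 4 := rfl
      have e5 : (0 : Fin 6) + 4 + 1 = 5 := rfl
      rw [e5, e1, e2, e3, e4]
      push_cast
      ring
    have e6 : (0 : Fin 6) + 4 + 1 + 1 = 0 := rfl
    rw [e6, ← Fin.sum_univ_six] at hn5
    have he0 : e 0 ≠ 0 := by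
      intro h0
      have := hnorm 0
      rw [h0] at this
      simp at this
    have h7 : Complex.exp (((2 * ∑ k, x k : ℝ) : ℂ) * Complex.I) = 1 := by
      have : 1 * e 0 = Complex.exp (((2 * ∑ k, x k : ℝ) : ℂ) * Complex.I) * e 0 := by
        rw [one_mul]; exact hn5
      exact (mul_right_cancel₀ he0 this).symm
    rw [Complex.exp_eq_one_iff] at h7
    obtain ⟨n, hn⟩ := h7
    refine ⟨n, ?_⟩
    have h8 : (((2 * ∑ k, x k : ℝ) : ℂ)) = ((n * (2 * π) : ℝ) : ℂ) := by
      have h9 : (((2 * ∑ k, x k : ℝ) : ℂ)) * Complex.I = ((n * (2 * π) : ℝ) : ℂ) * Complex.I := by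
        rw [hn]
        push_cast
        ring
      exact mul_right_cancel₀ Complex.I_ne_zero h9
    have h10 : 2 * ∑ k, x k = n * (2 * π) := by exact_mod_cast h8
    change ∑ k, x k = n * π
    linarith

/-- In a univalent flower the half angles at the centre add up to `π`. -/
theorem IsFlower.sum_hang {r : ℝ} {a : Fin 6 → ℝ} {z : Fin 6 → ℂ} (h : IsFlower r a z) :
    ∑ k, hang r (a k) (a (k + 1)) = π := h.half.sum_eq

/-- The constant in the ring lemma for radii. -/
noncomputable def ringC : ℝ := del 5 ^ 2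

theorem ringC_pos : 0 < ringC := pow_pos (del_pos 5) 2

/-- **Ring lemma**: the petals of a univalent flower are not small. -/
theorem IsFlower.ring {r : ℝ} {a : Fin 6 → ℝ} {z : Fin 6 → ℂ} (h : IsFlower r a z) (k : Fin 6) :
    ringC * r ≤ a k := by
  have h1 := h.half.ring k
  have hr := h.r_pos
  have ha := h.a_pos k
  have h2 : del 5 ^ 2 ≤ a k / (r + a k) := by
    have := pow_le_pow_left₀ (del_pos 5).le h1 2
    rwa [sq_sqrt (by positivity)] at this
  rw [le_div_iff₀ (by positivity)] at h2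
  unfold ringC
  have := del_pos 5
  nlinarith [pow_pos this 2]

end Pool.Agent.U333.Doyle
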