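import Mathlib

/-! # Cut-off functions of small energy on the triangular lattice -/

namespace Pool.Agent.U333.Doyle

open Finset Filter Topology

/-- The six directions of the triangular lattice, in cyclic order. -/
def dir : Fin 6 → ℤ × ℤ := ![(1, 0), (0, 1), (-1, 1), (-1, 0), (0, -1), (1, -1)]

theorem dir_add_three : ∀ k : Fin 6, dir k + dir (k + 3) = 0 := by decide

theorem dir_add_four : ∀ k : Fin 6, dir k + dir (k + 3 + 1) = dir (k + 5) := by decide

theorem dir_add_two : ∀ k : Fin 6, dir k + dir (k + 3 + 5) = dir (k + 1) := by decide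

theorem three_three : ∀ k : Fin 6, k + 3 + 3 = k := by decide

/-- Oriented edges: a vertex and a direction. -/
abbrev OEdge : Type := (ℤ × ℤ) × Fin 6

/-- Reversal of oriented edges. -/
def flip : OEdge ≃ OEdge where
  toFun p := (p.1 + dir p.2, p.2 + 3)
  invFun p := (p.1 + dir p.2, p.2 + 3)
  left_inv p := by
    obtain ⟨v, k⟩ := p
    simp only [Prod.mk.injEq]
    exact ⟨by rw [add_assoc, dir_add_three, add_zero], three_three k⟩
  right_inv p := by
    obtain ⟨v, k⟩ := p
    simp only [Prod.mk.injEq]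
    exact ⟨by rw [add_assoc, dir_add_three, add_zero], three_three k⟩

theorem flip_fst (p : OEdge) : (flip p).1 = p.1 + dir p.2 := rfl
theorem flip_snd (p : OEdge) : (flip p).2 = p.2 + 3 := rfl
theorem flip_flip (p : OEdge) : flip (flip p) = p := flip.left_inv p

/-- The box norm. -/
def nrm (v : ℤ × ℤ) : ℕ := max v.1.natAbs v.2.natAbs

theorem nrm_dir (k : Fin 6) : nrm (dir k) = 1 := by revert k; decide

theorem nrm_add_le (v w : ℤ × ℤ) : nrm (v + w) ≤ nrm v + nrm w := by
  unfold nrm
  simp only [Prod.fst_add, Prod.snd_add]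
  omega

theorem nrm_step (v : ℤ × ℤ) (k : Fin 6) : nrm (v + dir k) ≤ nrm v + 1 ∧
    nrm v ≤ nrm (v + dir k) + 1 := by
  constructor
  · have := nrm_add_le v (dir k)
    rwa [nrm_dir] at this
  · have h := nrm_add_le (v + dir k) (dir (k + 3))
    rw [add_assoc, dir_add_three, add_zero, nrm_dir] at h
    exact h

/-- The harmonic sums. -/
noncomputable def H (n : ℕ) : ℝ := ∑ i ∈ range n, 1 / ((i : ℝ) + 1)

theorem H_succ (n : ℕ) : H (n + 1) = H n + 1 / ((n : ℝ) + 1) := sum_range_succ _ _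

theorem H_mono : Monotone H := monotone_nat_of_le_succ fun n => by
  rw [H_succ]
  have : (0 : ℝ) < 1 / ((n : ℝ) + 1) := by positivity
  linarith

theorem H_zero : H 0 = 0 := by simp [H]

theorem H_tendsto : Tendsto H atTop atTop := Real.tendsto_sum_range_one_div_nat_succ_atTop

/-- The radial cut-off function. -/
noncomputable def cut (N : ℕ) (v : ℤ × ℤ) : ℝ := max 0 (1 - H (nrm v) / H N)

theorem max_diff (a b : ℝ) : |max 0 a - max 0 b| ≤ |a - b| := by
  have := abs_max_sub_max_le_max 0 a 0 b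
  simpa using this

theorem cut_zero (N : ℕ) : cut N 0 = 1 := by
  unfold cut
  have : nrm 0 = 0 := by decide
  rw [this, H_zero]
  simp

theorem cut_eq_zero {N : ℕ} (hN : 0 < H N) {v : ℤ × ℤ} (hv : N ≤ nrm v) : cut N v = 0 := by
  unfold cut
  apply max_eq_left
  have : 1 ≤ H (nrm v) / H N := by
    rw [one_le_div hN]
    exact H_mono hv
  linarith

theorem H_diff {i j : ℕ} (h1 : j ≤ i + 1) (h2 : i ≤ j + 1) : |H i - H j| ≤ 1 / (max 1 i : ℝ) := by
  have key : ∀ a : ℕ, |H (a + 1) - H a| = 1 / ((a : ℝ) + 1) := by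
    intro a
    rw [H_succ, add_sub_cancel_left, abs_of_pos (by positivity)]
  rcases Nat.lt_trichotomy i j with h | h | h
  · have : j = i + 1 := by omega
    subst this
    rw [abs_sub_comm, key]
    apply one_div_le_one_div_of_le (by positivity)
    apply max_le
    · have : (0 : ℝ) ≤ i := Nat.cast_nonneg i
      linarith
    · linarith
  · subst h
    rw [sub_self, abs_zero]
    positivity
  · have : i = j + 1 := by omega
    subst this
    rw [key]
    apply one_div_le_one_div_of_le (by positivity)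
    apply max_le
    · have : (0 : ℝ) ≤ j := Nat.cast_nonneg j
      linarith
    · push_cast
      exact le_rfl

theorem cut_diff {N : ℕ} (hN : 0 < H N) (v : ℤ × ℤ) (k : Fin 6) :
    (cut N (v + dir k) - cut N v) ^ 2 ≤
      if nrm v ≤ N then 1 / ((max 1 (nrm v : ℝ)) ^ 2 * H N ^ 2) else 0 := by
  obtain ⟨h1, h2⟩ := nrm_step v k
  split_ifs with h
  · have h3 : |cut N (v + dir k) - cut N v| ≤ 1 / (max 1 (nrm v : ℝ)) / H N := by
      unfold cut
      refine (max_diff _ _).trans ?_
      have : 1 - H (nrm (v + dir k)) / H N - (1 - H (nrm v) / H N) =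
          (H (nrm v) - H (nrm (v + dir k))) / H N := by ring
      rw [this, abs_div, abs_of_pos hN]
      gcongr
      exact H_diff h1 h2
    rw [← sq_abs]
    refine (pow_le_pow_left₀ (abs_nonneg _) h3 2).trans (le_of_eq ?_)
    rw [div_div, div_pow, mul_pow, one_pow]
  · rw [cut_eq_zero hN (by omega), cut_eq_zero hN (by omega)]
    norm_num

theorem sum_box (N : ℕ) (f : ℕ → ℝ) (S : Finset (ℤ × ℤ)) (hS : ∀ v, v ∈ S ↔ nrm v ≤ N) :
    ∑ v ∈ S, f (nrm v) = f 0 + ∑ j ∈ range N, 8 * ((j : ℝ) + 1) * f (j + 1) := by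
  classical
  have h1 : ∑ v ∈ S, f (nrm v) = ∑ j ∈ range (N + 1), ∑ v ∈ S with nrm v = j, f (nrm v) := by
    rw [sum_fiberwise_of_maps_to]
    intro v hv
    rw [mem_range]
    have := (hS v).1 hv
    omega
  have h2 : ∀ j ∈ range (N + 1), ∑ v ∈ S with nrm v = j, f (nrm v) =
      ((box j : Finset (ℤ × ℤ)).card : ℝ) * f j := by
    intro j hj
    rw [mem_range] at hj
    have h3 : (S.filter fun v => nrm v = j) = box j := by
      ext v
      rw [mem_filter, Int.mem_box, hS]
      change _ ∧ nrm v = j ↔ nrm v = j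
      constructor
      · exact fun h => h.2
      · exact fun h => ⟨by omega, h⟩
    rw [sum_congr rfl (g := fun _ => f j) (fun v hv => by rw [(mem_filter.1 hv).2]), h3, sum_const,
      nsmul_eq_mul]
  rw [h1, sum_congr rfl h2, sum_range_succ']
  rw [box_zero, card_singleton, Nat.cast_one, one_mul, add_comm]
  congr 1
  apply sum_congr rfl
  intro j _
  rw [Int.card_box (by omega)]
  push_cast
  ring

theorem exists_ball (N : ℕ) : ∃ S : Finset (ℤ × ℤ), ∀ v, v ∈ S ↔ nrm v ≤ N := by
  refine ⟨Icc (-(N : ℤ)) N ×ˢ Icc (-(N : ℤ)) N, fun v => ?_⟩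
  rw [mem_product, mem_Icc, mem_Icc]
  unfold nrm
  omega

/-- There are finitely supported functions with value `1` at `0` and small energy: the triangular
lattice is recurrent. -/
theorem exists_cut (ε : ℝ) (hε : 0 < ε) : ∃ χ : ℤ × ℤ → ℝ, χ.support.Finite ∧ χ 0 = 1 ∧
    ∑' p : OEdge, (χ (flip p).1 - χ p.1) ^ 2 ≤ ε := by
  classical
  have hlim : Tendsto (fun N => 6 * (1 + 8 * H N) / H N ^ 2) atTop (𝓝 0) := by
    have h1 : Tendsto (fun x : ℝ => 6 * (1 + 8 * x) / x ^ 2) atTop (𝓝 0) := by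
      have h2 : Tendsto (fun x : ℝ => 6 * x⁻¹ ^ 2 + 48 * x⁻¹) atTop (𝓝 (6 * 0 ^ 2 + 48 * 0)) :=
        ((tendsto_inv_atTop_zero.pow 2).const_mul 6).add (tendsto_inv_atTop_zero.const_mul 48)
      rw [show (6 * 0 ^ 2 + 48 * 0 : ℝ) = 0 by norm_num] at h2
      refine h2.congr' ?_
      filter_upwards [eventually_gt_atTop 0] with x hx
      field_simp
      ring
    exact h1.comp H_tendsto
  obtain ⟨N, hN1, hN2⟩ := ((H_tendsto.eventually_gt_atTop 0).and
    (hlim.eventually_le_const hε)).exists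
  refine ⟨cut N, ?_, cut_zero N, ?_⟩
  · obtain ⟨S, hS⟩ := exists_ball N
    apply S.finite_toSet.subset
    intro v hv
    rw [mem_coe, hS]
    by_contra hcon
    exact hv (cut_eq_zero hN1 (by omega))
  · obtain ⟨S, hS⟩ := exists_ball N
    have hsupp : ∀ p ∉ S ×ˢ (univ : Finset (Fin 6)),
        (cut N (flip p).1 - cut N p.1) ^ 2 = 0 := by
      rintro ⟨v, k⟩ hp
      have hv : ¬ nrm v ≤ N := by
        intro h
        apply hp
        rw [mem_product]
        exact ⟨(hS v).2 h, mem_univ _⟩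
      have := cut_diff hN1 v k
      rw [if_neg hv] at this
      exact le_antisymm this (sq_nonneg _)
    rw [tsum_eq_sum hsupp, sum_product]
    have h3 : ∀ v ∈ S, ∑ k : Fin 6, (cut N (flip (v, k)).1 - cut N v) ^ 2 ≤
        6 * (1 / ((max 1 (nrm v : ℝ)) ^ 2 * H N ^ 2)) := by
      intro v hv
      have h4 : ∀ k ∈ (univ : Finset (Fin 6)), (cut N (flip (v, k)).1 - cut N v) ^ 2 ≤
          1 / ((max 1 (nrm v : ℝ)) ^ 2 * H N ^ 2) := by
        intro k _
        have := cut_diff hN1 v k
        rwa [if_pos ((hS v).1 hv)] at this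
      refine (sum_le_card_nsmul _ _ _ h4).trans (le_of_eq ?_)
      rw [card_univ, Fintype.card_fin, nsmul_eq_mul]
      norm_num
    refine (sum_le_sum h3).trans ?_
    rw [sum_box N (fun j => 6 * (1 / ((max 1 (j : ℝ)) ^ 2 * H N ^ 2))) S hS]
    refine le_trans (le_of_eq ?_) hN2
    have h5 : ∀ j ∈ range N, 8 * ((j : ℝ) + 1) *
        (6 * (1 / ((max 1 ((j + 1 : ℕ) : ℝ)) ^ 2 * H N ^ 2))) =
        48 / H N ^ 2 * (1 / ((j : ℝ) + 1)) := by
      intro j _
      have h6 : max 1 ((j + 1 : ℕ) : ℝ) = (j : ℝ) + 1 := by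
        push_cast
        apply max_eq_right
        have : (0 : ℝ) ≤ j := Nat.cast_nonneg j
        linarith
      rw [h6]
      have : (0 : ℝ) < (j : ℝ) + 1 := by positivity
      field_simp
      norm_num
    rw [sum_congr rfl h5, ← mul_sum]
    change _ + _ * H N = _
    simp only [Nat.cast_zero]
    rw [max_eq_left (by norm_num : (0 : ℝ) ≤ 1)]
    field_simp
    ring

end Pool.Agent.U333.Doyle
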