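import Pool.Agent.U333.Doyle.Geo
import Pool.Agent.U333.Doyle.Lattice

/-! # The linearised equation -/

namespace Pool.Agent.U333.Doyle

open Real Finset

/-- The conductance: half the inradius of the triangle of the three centres over the length of the
edge joining the centres of the first two circles. -/
noncomputable def kap (v a b : ℝ) : ℝ := √(v * a * b / (v + a + b)) / (2 * (v + a))

theorem kap_symm (v a b : ℝ) : kap v a b = kap a v b := by
  unfold kap
  rw [mul_comm v a, add_comm v a]

theorem kap_nonneg {v a b : ℝ} (hv : 0 < v) (ha : 0 < a) : 0 ≤ kap v a b := by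
  unfold kap
  positivity

theorem kap_le {v a b : ℝ} (hv : 0 < v) (ha : 0 < a) (hb : 0 < b) : kap v a b ≤ 1 / 4 := by
  unfold kap
  have h1 : √(v * a * b / (v + a + b)) ≤ (v + a) / 2 := by
    apply sqrt_le_iff.2 ⟨by positivity, ?_⟩
    rw [div_le_iff₀ (by positivity)]
    have h2 : v * a ≤ ((v + a) / 2) ^ 2 := by nlinarith [sq_nonneg (v - a)]
    have h3 : b ≤ v + a + b := by linarith
    exact mul_le_mul h2 h3 hb.le (by positivity)
  rw [div_le_iff₀ (by positivity)]
  linarith

theorem kap_lower {K v a b : ℝ} (hK : 1 ≤ K) (hv : 0 < v) (ha : 0 < a) (hb : 0 < b)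
    (h1 : a ≤ K * v) (h2 : b ≤ K * v) (h3 : v ≤ K * a) (h4 : v ≤ K * b) :
    1 / (2 * K * (1 + K) * (1 + 2 * K)) ≤ kap v a b := by
  unfold kap
  have hK0 : 0 < K := by linarith
  have h5 : v / (K * (1 + 2 * K)) ≤ √(v * a * b / (v + a + b)) := by
    apply le_sqrt_of_sq_le
    rw [le_div_iff₀ (by positivity)]
    have e1 : v / K ≤ a := by rw [div_le_iff₀ hK0]; linarith
    have e2 : v / K ≤ b := by rw [div_le_iff₀ hK0]; linarith
    have e3 : v + a + b ≤ (1 + 2 * K) * v := by linarith
    calc (v / (K * (1 + 2 * K))) ^ 2 * (v + a + b)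
        ≤ (v / (K * (1 + 2 * K))) ^ 2 * ((1 + 2 * K) * v) := by gcongr
      _ = v * (v / K) * (v / K) / (1 + 2 * K) := by field_simp
      _ ≤ v * (v / K) * (v / K) / 1 := by gcongr; linarith
      _ = v * (v / K) * (v / K) := by ring
      _ ≤ v * a * b := by gcongr
  rw [le_div_iff₀ (by positivity)]
  refine le_trans ?_ h5
  have e4 : 2 * (v + a) ≤ 2 * ((1 + K) * v) := by linarith
  calc 1 / (2 * K * (1 + K) * (1 + 2 * K)) * (2 * (v + a))
      ≤ 1 / (2 * K * (1 + K) * (1 + 2 * K)) * (2 * ((1 + K) * v)) := by gcongr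
    _ = v / (K * (1 + 2 * K)) := by field_simp

theorem hasDerivAt_hang (V A B V' A' B' t : ℝ) :
    HasDerivAt (fun t => hang (exp (V + t * V')) (exp (A + t * A')) (exp (B + t * B')))
      (kap (exp (V + t * V')) (exp (A + t * A')) (exp (B + t * B')) * (A' - V') +
        kap (exp (V + t * V')) (exp (B + t * B')) (exp (A + t * A')) * (B' - V')) t := by
  have hd : ∀ X X' : ℝ, HasDerivAt (fun t => exp (X + t * X')) (exp (X + t * X') * X') t := by
    intro X X'
    have h1 : HasDerivAt (fun t : ℝ => X + t * X') X' t := by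
      simpa using ((hasDerivAt_id t).mul_const X').const_add X
    exact h1.exp
  have hv := hd V V'
  have ha := hd A A'
  have hb := hd B B'
  set v := exp (V + t * V') with hvdef
  set a := exp (A + t * A') with hadef
  set b := exp (B + t * B') with hbdef
  have v0 : 0 < v := exp_pos _
  have a0 : 0 < a := exp_pos _
  have b0 : 0 < b := exp_pos _
  have hN := ha.mul hb
  have hD := hv.mul ((hv.add ha).add hb)
  have hf := hN.div hD (by simp only [Pi.mul_apply, Pi.add_apply]; rw [← hvdef, ← hadef, ← hbdef]; positivity)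
  have hs := hf.sqrt (by
    simp only [Pi.div_apply, Pi.mul_apply, Pi.add_apply]; rw [← hvdef, ← hadef, ← hbdef]
    positivity)
  have harc := hs.arctan
  unfold hang
  refine harc.congr_deriv ?_
  simp only [Pi.div_apply, Pi.mul_apply, Pi.add_apply]
  rw [← hvdef, ← hadef, ← hbdef]
  have e1 : a * b / (v * (v + a + b)) = v * a * b / (v + a + b) / v ^ 2 := by
    field_simp
  have e2 : √(a * b / (v * (v + a + b))) = √(v * a * b / (v + a + b)) / v := by
    rw [e1, sqrt_div' _ (by positivity), sqrt_sq v0.le]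
  unfold kap
  have e3 : v * b * a / (v + b + a) = v * a * b / (v + a + b) := by
    rw [mul_right_comm, add_right_comm]
  rw [e3, e2]
  have hq : 0 < √(v * a * b / (v + a + b)) := sqrt_pos.2 (by positivity)
  have hq2 : √(v * a * b / (v + a + b)) ^ 2 = v * a * b / (v + a + b) := sq_sqrt (by positivity)
  set q := √(v * a * b / (v + a + b)) with hqdef
  have hq3 : 1 + (q / v) ^ 2 = (v + a) * (v + b) / (v * (v + a + b)) := by
    rw [div_pow, hq2]
    field_simp
    ring
  rw [hq3]
  have step1 : ∀ X : ℝ, X = v * a * b / (v + a + b) / q *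
      (((v + b) * (A' - V') + (v + a) * (B' - V')) / (2 * (v + a) * (v + b))) →
      X = q / (2 * (v + a)) * (A' - V') + q / (2 * (v + b)) * (B' - V') := by
    intro X hX
    rw [hX, ← hq2]
    field_simp
  apply step1
  field_simp
  ring

end Pool.Agent.U333.Doyle
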