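import Pool.Agent.U333.Doyle.Lin

/-! # Labels of the hexagonal complex whose flowers are univalent -/

namespace Pool.Agent.U333.Doyle

open Real Finset Filter Topology

/-- The half angle sum at a vertex of a label. -/
noncomputable def hsum (R : ℤ × ℤ → ℝ) (v : ℤ × ℤ) : ℝ :=
  ∑ k, hang (R v) (R (v + dir k)) (R (v + dir (k + 1)))

/-- The conductance of an oriented edge. -/
noncomputable def cond (R : ℤ × ℤ → ℝ) (p : OEdge) : ℝ :=
  kap (R p.1) (R (p.1 + dir p.2)) (R (p.1 + dir (p.2 + 1))) +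
    kap (R p.1) (R (p.1 + dir p.2)) (R (p.1 + dir (p.2 + 5)))

theorem cond_flip (R : ℤ × ℤ → ℝ) (p : OEdge) : cond R (flip p) = cond R p := by
  obtain ⟨v, k⟩ := p
  unfold cond
  simp only [flip_fst, flip_snd]
  rw [add_assoc v, dir_add_three, add_zero, add_assoc v, dir_add_four, add_assoc v, dir_add_two,
    add_comm, kap_symm, kap_symm (R (v + dir k)) (R v) (R (v + dir (k + 5)))]

theorem cond_nonneg {R : ℤ × ℤ → ℝ} (hR : ∀ v, 0 < R v) (p : OEdge) : 0 ≤ cond R p :=
  add_nonneg (kap_nonneg (hR _) (hR _)) (kap_nonneg (hR _) (hR _))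

theorem cond_le {R : ℤ × ℤ → ℝ} (hR : ∀ v, 0 < R v) (p : OEdge) : cond R p ≤ 1 / 2 := by
  have h1 := kap_le (hR p.1) (hR (p.1 + dir p.2)) (hR (p.1 + dir (p.2 + 1)))
  have h2 := kap_le (hR p.1) (hR (p.1 + dir p.2)) (hR (p.1 + dir (p.2 + 5)))
  unfold cond
  linarith

/-- The label between `R₀` (`t = 0`) and `R₁` (`t = 1`). -/
noncomputable def path (R₀ R₁ : ℤ × ℤ → ℝ) (t : ℝ) (v : ℤ × ℤ) : ℝ :=
  exp (log (R₀ v) + t * (log (R₁ v) - log (R₀ v)))

theorem path_pos (R₀ R₁ : ℤ × ℤ → ℝ) (t : ℝ) (v : ℤ × ℤ) : 0 < path R₀ R₁ t v := exp_pos _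

theorem path_zero {R₀ R₁ : ℤ × ℤ → ℝ} (h0 : ∀ v, 0 < R₀ v) : path R₀ R₁ 0 = R₀ := by
  funext v
  unfold path
  rw [zero_mul, add_zero, exp_log (h0 v)]

theorem path_one {R₀ R₁ : ℤ × ℤ → ℝ} (h1 : ∀ v, 0 < R₁ v) : path R₀ R₁ 1 = R₁ := by
  funext v
  unfold path
  rw [one_mul, add_sub_cancel, exp_log (h1 v)]

/-- If two labels have the same angle sums, then their logarithmic quotient `u` satisfies the
linearised equation, tested with `η`, for some intermediate label. -/
theorem rolle {R₀ R₁ : ℤ × ℤ → ℝ} (h0 : ∀ v, 0 < R₀ v) (h1 : ∀ v, 0 < R₁ v)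
    (hs : ∀ v, hsum R₀ v = hsum R₁ v) (S : Finset (ℤ × ℤ)) (η : ℤ × ℤ → ℝ) :
    ∃ t ∈ Set.Ioo (0 : ℝ) 1, ∑ v ∈ S, η v * ∑ k, cond (path R₀ R₁ t) (v, k) *
      ((log (R₁ (v + dir k)) - log (R₀ (v + dir k))) - (log (R₁ v) - log (R₀ v))) = 0 := by
  set u : ℤ × ℤ → ℝ := fun v => log (R₁ v) - log (R₀ v) with hu
  have hder : ∀ t : ℝ, HasDerivAt (fun t => ∑ v ∈ S, η v * hsum (path R₀ R₁ t) v)
      (∑ v ∈ S, η v * ∑ k, cond (path R₀ R₁ t) (v, k) * (u (v + dir k) - u v)) t := by
    intro t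
    apply HasDerivAt.fun_sum
    intro v _
    apply HasDerivAt.const_mul
    have h2 : HasDerivAt (fun t => hsum (path R₀ R₁ t) v)
        (∑ k, (kap (path R₀ R₁ t v) (path R₀ R₁ t (v + dir k)) (path R₀ R₁ t (v + dir (k + 1))) *
          (u (v + dir k) - u v) +
          kap (path R₀ R₁ t v) (path R₀ R₁ t (v + dir (k + 1))) (path R₀ R₁ t (v + dir k)) *
          (u (v + dir (k + 1)) - u v))) t := by
      unfold hsum
      apply HasDerivAt.fun_sum
      intro k _
      exact hasDerivAt_hang _ _ _ _ _ _ t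
    refine h2.congr_deriv ?_
    rw [sum_add_distrib]
    have h3 : ∑ k, kap (path R₀ R₁ t v) (path R₀ R₁ t (v + dir (k + 1)))
        (path R₀ R₁ t (v + dir k)) * (u (v + dir (k + 1)) - u v) =
        ∑ k, kap (path R₀ R₁ t v) (path R₀ R₁ t (v + dir k))
        (path R₀ R₁ t (v + dir (k + 5))) * (u (v + dir k) - u v) := by
      rw [← Equiv.sum_comp (Equiv.addRight (1 : Fin 6)) (fun k => kap (path R₀ R₁ t v)
        (path R₀ R₁ t (v + dir k)) (path R₀ R₁ t (v + dir (k + 5))) * (u (v + dir k) - u v))]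
      apply sum_congr rfl
      intro k _
      have e : ∀ k : Fin 6, k + 1 + 5 = k := by decide
      simp only [Equiv.coe_addRight]
      rw [e]
    rw [h3, ← sum_add_distrib]
    apply sum_congr rfl
    intro k _
    unfold cond
    ring
  have hcont : ContinuousOn (fun t => ∑ v ∈ S, η v * hsum (path R₀ R₁ t) v) (Set.Icc 0 1) :=
    fun t _ => (hder t).continuousAt.continuousWithinAt
  obtain ⟨t, ht, h⟩ := exists_hasDerivAt_eq_zero (f := fun t => ∑ v ∈ S, η v *
    hsum (path R₀ R₁ t) v) zero_lt_one hcont (by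
      rw [path_zero h0, path_one h1]
      exact sum_congr rfl fun v _ => by rw [hs v]) (fun t _ => hder t)
  exact ⟨t, ht, h⟩

/-- The pointwise inequality behind the energy estimate. -/
theorem pointwise (a b p q : ℝ) :
    (p ^ 2 + q ^ 2) / 4 * (b - a) ^ 2 - (q - p) ^ 2 * (a + b) ^ 2 / 2 ≤
      (b - a) * (q ^ 2 * b - p ^ 2 * a) := by
  nlinarith [sq_nonneg ((q + p) * (b - a) + 2 * (q - p) * (a + b)),
    sq_nonneg ((q - p) * (b - a))]

theorem finite_supp {χ : ℤ × ℤ → ℝ} (hχ : χ.support.Finite) (g : OEdge → ℝ)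
    (hg : ∀ p, χ p.1 = 0 → χ (flip p).1 = 0 → g p = 0) : g.support.Finite := by
  have h1 : (χ.support ×ˢ (Set.univ : Set (Fin 6))).Finite := hχ.prod Set.finite_univ
  have h2 : (flip '' (χ.support ×ˢ (Set.univ : Set (Fin 6)))).Finite := h1.image _
  apply (h1.union h2).subset
  intro p hp
  by_contra hcon
  rw [Set.mem_union, not_or] at hcon
  apply hp
  apply hg
  · by_contra h
    exact hcon.1 ⟨h, Set.mem_univ _⟩
  · by_contra h
    exact hcon.2 ⟨flip p, ⟨h, Set.mem_univ _⟩, flip_flip p⟩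

/-- **Energy estimate** (Caccioppoli inequality). -/
theorem energy (c : OEdge → ℝ) (hc0 : ∀ p, 0 ≤ c p) (hc1 : ∀ p, c p ≤ 1 / 2)
    (hc : ∀ p, c (flip p) = c p) (u χ : ℤ × ℤ → ℝ) (M : ℝ) (hM : ∀ v, |u v| ≤ M)
    (hχ : χ.support.Finite)
    (h : ∑ v ∈ hχ.toFinset, χ v ^ 2 * u v * ∑ k, c (v, k) * (u (v + dir k) - u v) = 0)
    (p : OEdge) :
    c p * (χ p.1 ^ 2 * (u (flip p).1 - u p.1) ^ 2) ≤
      4 * M ^ 2 * ∑' p : OEdge, (χ (flip p).1 - χ p.1) ^ 2 := by
  classical
  set f : OEdge → ℝ := fun p => χ p.1 ^ 2 * u p.1 * (c p * (u (flip p).1 - u p.1)) with hf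
  have hfs : f.support.Finite := finite_supp hχ f fun p h _ => by simp [hf, h]
  have hfS : Summable f := summable_of_hasFiniteSupport hfs
  have hsum : ∑' p, f p = 0 := by
    rw [tsum_eq_sum (s := hχ.toFinset ×ˢ (univ : Finset (Fin 6))), sum_product]
    · rw [← h]
      apply sum_congr rfl
      intro v _
      rw [mul_sum]
      rfl
    · intro p hp
      have : χ p.1 = 0 := by
        by_contra hne
        apply hp
        rw [mem_product]
        exact ⟨(Set.Finite.mem_toFinset hχ).2 hne, mem_univ _⟩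
      simp [hf, this]
  have hfs2 : (fun p => f (flip p)).support.Finite := finite_supp hχ _ fun p _ h => by simp [hf, h]
  have hfS2 : Summable (fun p => f (flip p)) := summable_of_hasFiniteSupport hfs2
  have hsum2 : ∑' p, f (flip p) = 0 := by rw [Equiv.tsum_eq flip f, hsum]
  have hsum3 : ∑' p, (f p + f (flip p)) = 0 := by rw [hfS.tsum_add hfS2, hsum, hsum2, add_zero]
  -- the three sums
  set g1 : OEdge → ℝ := fun p => c p * ((χ p.1 ^ 2 + χ (flip p).1 ^ 2) / 4 *
    (u (flip p).1 - u p.1) ^ 2) with hg1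
  set g2 : OEdge → ℝ := fun p => M ^ 2 * (χ (flip p).1 - χ p.1) ^ 2 with hg2
  have hg1S : Summable g1 := summable_of_hasFiniteSupport
    (finite_supp hχ g1 fun p h1 h2 => by simp only [hg1, h1, h2]; ring)
  have hg2S : Summable g2 := summable_of_hasFiniteSupport
    (finite_supp hχ g2 fun p h1 h2 => by simp only [hg2, h1, h2]; ring)
  have hpt : ∀ p, g1 p + (f p + f (flip p)) ≤ g2 p := by
    intro p
    simp only [hf, hg1, hg2]
    rw [flip_flip, hc]
    have h1 := mul_le_mul_of_nonneg_left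
      (pointwise (u p.1) (u (flip p).1) (χ p.1) (χ (flip p).1)) (hc0 p)
    have h2 : (u p.1 + u (flip p).1) ^ 2 ≤ (2 * M) ^ 2 := by
      apply sq_le_sq'
      · linarith [(abs_le.1 (hM p.1)).1, (abs_le.1 (hM (flip p).1)).1]
      · linarith [(abs_le.1 (hM p.1)).2, (abs_le.1 (hM (flip p).1)).2]
    have h3 : c p * ((χ (flip p).1 - χ p.1) ^ 2 * (u p.1 + u (flip p).1) ^ 2 / 2) ≤
        M ^ 2 * (χ (flip p).1 - χ p.1) ^ 2 := by
      calc c p * ((χ (flip p).1 - χ p.1) ^ 2 * (u p.1 + u (flip p).1) ^ 2 / 2)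
          ≤ 1 / 2 * ((χ (flip p).1 - χ p.1) ^ 2 * (2 * M) ^ 2 / 2) := by
            apply mul_le_mul (hc1 p) _ (by positivity) (by norm_num)
            gcongr
        _ = M ^ 2 * (χ (flip p).1 - χ p.1) ^ 2 := by ring
    linarith [h1, h3]
  have h4 : ∑' p, (g1 p + (f p + f (flip p))) ≤ ∑' p, g2 p :=
    (hg1S.add (hfS.add hfS2)).tsum_le_tsum hpt hg2S
  rw [hg1S.tsum_add (hfS.add hfS2), hsum3, add_zero, tsum_mul_left] at h4
  have h5 : g1 p ≤ ∑' p, g1 p := by
    apply hg1S.le_tsum
    intro q _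
    simp only [hg1]
    have := hc0 q
    positivity
  have h6 : c p * (χ p.1 ^ 2 * (u (flip p).1 - u p.1) ^ 2) ≤ 4 * g1 p := by
    simp only [hg1]
    have h7 : 0 ≤ c p * (χ (flip p).1 ^ 2 * (u (flip p).1 - u p.1) ^ 2) := by
      have := hc0 p
      positivity
    linarith
  linarith

/-- A lower bound for the conductances of the intermediate labels. -/
theorem cond_lower {R₀ R₁ : ℤ × ℤ → ℝ} {K : ℝ} (hK : 1 ≤ K)
    (h0 : ∀ v, 0 < R₀ v) (h1 : ∀ v, 0 < R₁ v)
    (k0 : ∀ v k, R₀ (v + dir k) ≤ K * R₀ v) (k1 : ∀ v k, R₁ (v + dir k) ≤ K * R₁ v)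
    {t : ℝ} (ht : t ∈ Set.Ioo (0 : ℝ) 1) (p : OEdge) :
    1 / (2 * K * (1 + K) * (1 + 2 * K)) ≤ cond (path R₀ R₁ t) p := by
  have hK0 : 0 < K := by linarith
  have key : ∀ v k, path R₀ R₁ t (v + dir k) ≤ K * path R₀ R₁ t v := by
    intro v k
    unfold path
    rw [← log_le_log_iff (exp_pos _) (by positivity), log_exp, log_mul hK0.ne' (exp_pos _).ne',
      log_exp]
    have e0 : log (R₀ (v + dir k)) ≤ log K + log (R₀ v) := by
      rw [← log_mul hK0.ne' (h0 v).ne']
      exact log_le_log (h0 _) (k0 v k)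
    have e1 : log (R₁ (v + dir k)) ≤ log K + log (R₁ v) := by
      rw [← log_mul hK0.ne' (h1 v).ne']
      exact log_le_log (h1 _) (k1 v k)
    have := ht.1
    have := ht.2
    nlinarith
  have key2 : ∀ v k, path R₀ R₁ t v ≤ K * path R₀ R₁ t (v + dir k) := by
    intro v k
    have := key (v + dir k) (k + 3)
    rwa [add_assoc, dir_add_three, add_zero] at this
  obtain ⟨v, k⟩ := p
  have h2 := kap_lower hK (path_pos R₀ R₁ t v) (path_pos R₀ R₁ t (v + dir k))
    (path_pos R₀ R₁ t (v + dir (k + 1))) (key _ _) (key _ _) (key2 _ _) (key2 _ _)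
  have h3 := kap_nonneg (b := path R₀ R₁ t (v + dir (k + 5))) (path_pos R₀ R₁ t v)
    (path_pos R₀ R₁ t (v + dir k))
  unfold cond
  simp only
  linarith

/-- **Liouville theorem.** Two labels with equal angle sums, bounded quotient and bounded quotients
of neighbours are proportional along each edge at the origin. -/
theorem liouville_zero {R₀ R₁ : ℤ × ℤ → ℝ} {K M : ℝ} (hK : 1 ≤ K)
    (h0 : ∀ v, 0 < R₀ v) (h1 : ∀ v, 0 < R₁ v)
    (k0 : ∀ v k, R₀ (v + dir k) ≤ K * R₀ v) (k1 : ∀ v k, R₁ (v + dir k) ≤ K * R₁ v)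
    (hs : ∀ v, hsum R₀ v = hsum R₁ v) (hM : ∀ v, |log (R₁ v) - log (R₀ v)| ≤ M) (k : Fin 6) :
    log (R₁ (dir k)) - log (R₀ (dir k)) = log (R₁ 0) - log (R₀ 0) := by
  set u : ℤ × ℤ → ℝ := fun v => log (R₁ v) - log (R₀ v) with hu
  set c0 : ℝ := 1 / (2 * K * (1 + K) * (1 + 2 * K)) with hc0
  have hc0pos : 0 < c0 := by
    have : 0 < K := by linarith
    positivity
  have key : ∀ ε > 0, c0 * (u (dir k) - u 0) ^ 2 ≤ 4 * M ^ 2 * ε := by
    intro ε hε
    obtain ⟨χ, hχ, hχ0, hE⟩ := exists_cut ε hε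
    obtain ⟨t, ht, h⟩ := rolle h0 h1 hs hχ.toFinset (fun v => χ v ^ 2 * u v)
    have h2 := energy (cond (path R₀ R₁ t)) (cond_nonneg (path_pos _ _ _))
      (cond_le (path_pos _ _ _)) (cond_flip _) u χ M hM hχ h ((0, 0), k)
    have h3 : (flip ((0, 0), k)).1 = dir k := by
      rw [flip_fst]
      change (0 : ℤ × ℤ) + dir k = dir k
      rw [zero_add]
    have h4 : χ (0, 0) = 1 := hχ0
    rw [h3] at h2
    simp only at h2
    rw [h4] at h2
    have h5 := cond_lower hK h0 h1 k0 k1 ht ((0, 0), k)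
    have h6 : (0 : ℝ) ≤ (u (dir k) - u 0) ^ 2 := sq_nonneg _
    calc c0 * (u (dir k) - u 0) ^ 2
        ≤ cond (path R₀ R₁ t) ((0, 0), k) * (u (dir k) - u 0) ^ 2 := by gcongr
      _ = cond (path R₀ R₁ t) ((0, 0), k) * (1 ^ 2 * (u (dir k) - u (0, 0)) ^ 2) := by
          rw [one_pow, one_mul]; rfl
      _ ≤ _ := h2
      _ ≤ 4 * M ^ 2 * ε := by gcongr
  have h7 : c0 * (u (dir k) - u 0) ^ 2 ≤ 0 := by
    apply le_of_forall_pos_le_add
    intro ε hε
    have hpos : 0 < 4 * M ^ 2 + 1 := by positivity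
    have := key (ε / (4 * M ^ 2 + 1)) (by positivity)
    have h8 : 4 * M ^ 2 * (ε / (4 * M ^ 2 + 1)) ≤ ε := by
      rw [mul_div_assoc', div_le_iff₀ hpos]
      nlinarith
    linarith
  have h9 : (u (dir k) - u 0) ^ 2 ≤ 0 := by
    by_contra hcon
    push Not at hcon
    have := mul_pos hc0pos hcon
    linarith
  have h10 : u (dir k) - u 0 = 0 := by
    have := sq_nonneg (u (dir k) - u 0)
    exact pow_eq_zero_iff (two_ne_zero) |>.1 (le_antisymm h9 this)
  linarith

/-- The radii of the petals at `v`. -/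
def petals (R : ℤ × ℤ → ℝ) (v : ℤ × ℤ) (k : Fin 6) : ℝ := R (v + dir k)

/-- **Main theorem**: a label of the hexagonal complex all of whose flowers are univalent is
of the form `c a ^ n b ^ m`. -/
theorem main (R : ℤ × ℤ → ℝ) (hfl : ∀ v, ∃ z : Fin 6 → ℂ, IsFlower (R v) (petals R v) z) :
    ∃ a b c : ℝ, 0 < a ∧ 0 < b ∧ 0 < c ∧ ∀ n m : ℤ, R (n, m) = c * a ^ n * b ^ m := by
  have hpos : ∀ v, 0 < R v := fun v => (hfl v).choose_spec.r_pos
  have hsum : ∀ v, hsum R v = π := fun v => (hfl v).choose_spec.sum_hang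
  have hC := ringC_pos
  have hring : ∀ v k, ringC * R v ≤ R (v + dir k) := fun v k => (hfl v).choose_spec.ring k
  set K : ℝ := max 1 ringC⁻¹ with hKdef
  have hK : 1 ≤ K := le_max_left _ _
  have hkk : ∀ v k, R (v + dir k) ≤ K * R v := by
    intro v k
    have h1 := hring (v + dir k) (k + 3)
    rw [add_assoc, dir_add_three, add_zero] at h1
    have h2 : R (v + dir k) ≤ ringC⁻¹ * R v := by
      rw [inv_mul_eq_div, le_div_iff₀ hC]
      linarith
    exact h2.trans (mul_le_mul_of_nonneg_right (le_max_right _ _) (hpos v).le)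
  -- translations
  have hlog : ∀ v k, |log (R (v + dir k)) - log (R v)| ≤ log K := by
    intro v k
    have hK0 : 0 < K := by linarith
    rw [abs_le]
    constructor
    · have h1 := hkk (v + dir k) (k + 3)
      rw [add_assoc, dir_add_three, add_zero] at h1
      have := log_le_log (hpos v) h1
      rw [log_mul hK0.ne' (hpos _).ne'] at this
      linarith
    · have := log_le_log (hpos _) (hkk v k)
      rw [log_mul hK0.ne' (hpos _).ne'] at this
      linarith
  have hshift : ∀ (e v : ℤ × ℤ), Pool.Agent.U333.Doyle.hsum (fun w => R (w + e)) v = π := by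
    intro e v
    have := hsum (v + e)
    unfold Pool.Agent.U333.Doyle.hsum at this ⊢
    rw [← this]
    apply sum_congr rfl
    intro k _
    change hang (R (v + e)) (R (v + dir k + e)) (R (v + dir (k + 1) + e)) = _
    rw [add_right_comm v (dir k) e, add_right_comm v (dir (k+1)) e]
  have hlin : ∀ (j k : Fin 6) (v : ℤ × ℤ),
      log (R (v + dir k + dir j)) - log (R (v + dir k)) = log (R (v + dir j)) - log (R v) := by
    intro j k v
    have h := liouville_zero (R₀ := fun w => R (w + v)) (R₁ := fun w => R (w + (dir j + v)))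
      (K := K) (M := log K) hK (fun w => hpos _) (fun w => hpos _)
      (fun w i => by
        have := hkk (w + v) i
        rwa [add_right_comm] at this)
      (fun w i => by
        have := hkk (w + (dir j + v)) i
        rwa [add_right_comm] at this)
      (fun w => by rw [hshift, hshift])
      (fun w => by
        have := hlog (w + v) j
        rwa [add_assoc w, add_comm v] at this) k
    rw [zero_add, zero_add] at h
    rw [show v + dir k + dir j = dir k + (dir j + v) by abel,
      show v + dir k = dir k + v by abel, show v + dir j = dir j + v by abel]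
    exact h
  -- the logarithms are affine
  set L : ℤ × ℤ → ℝ := fun v => log (R v) with hL
  have d0 : dir 0 = (1, 0) := rfl
  have d1 : dir 1 = (0, 1) := rfl
  have aff0 : ∀ n m : ℤ, L (n + 1, m) - L (n, m) = L (1, 0) - L (0, 0) := by
    intro n m
    have hstep1 : ∀ n m : ℤ, L (n + 1 + 1, m) - L (n + 1, m) = L (n + 1, m) - L (n, m) := by
      intro n m
      have := hlin 0 0 (n, m)
      simpa [d0, hL] using this
    have hstep2 : ∀ n m : ℤ, L (n + 1, m + 1) - L (n, m + 1) = L (n + 1, m) - L (n, m) := by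
      intro n m
      have := hlin 0 1 (n, m)
      simpa [d0, d1, hL] using this
    have hn : ∀ n m : ℤ, L (n + 1, m) - L (n, m) = L (0 + 1, m) - L (0, m) := by
      intro n m
      induction n using Int.induction_on with
      | zero => rfl
      | succ i ih => rw [hstep1, ih]
      | pred i ih =>
        have := hstep1 (-(i : ℤ) - 1) m
        rw [sub_add_cancel] at this
        rw [sub_add_cancel, ← this, ih]
    have hm : ∀ m : ℤ, L (0 + 1, m) - L (0, m) = L (0 + 1, 0) - L (0, 0) := by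
      intro m
      induction m using Int.induction_on with
      | zero => rfl
      | succ i ih => rw [hstep2, ih]
      | pred i ih =>
        have := hstep2 0 (-(i : ℤ) - 1)
        rw [sub_add_cancel] at this
        rw [← this, ih]
    rw [hn, hm, zero_add]
  have aff1 : ∀ n m : ℤ, L (n, m + 1) - L (n, m) = L (0, 1) - L (0, 0) := by
    intro n m
    have hstep1 : ∀ n m : ℤ, L (n + 1, m + 1) - L (n + 1, m) = L (n, m + 1) - L (n, m) := by
      intro n m
      have := hlin 1 0 (n, m)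
      simpa [d0, d1, hL] using this
    have hstep2 : ∀ n m : ℤ, L (n, m + 1 + 1) - L (n, m + 1) = L (n, m + 1) - L (n, m) := by
      intro n m
      have := hlin 1 1 (n, m)
      simpa [d0, d1, hL] using this
    have hn : ∀ n m : ℤ, L (n, m + 1) - L (n, m) = L (0, m + 1) - L (0, m) := by
      intro n m
      induction n using Int.induction_on with
      | zero => rfl
      | succ i ih => rw [hstep1, ih]
      | pred i ih =>
        have := hstep1 (-(i : ℤ) - 1) m
        rw [sub_add_cancel] at this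
        rw [← this, ih]
    have hm : ∀ m : ℤ, L (0, m + 1) - L (0, m) = L (0, 0 + 1) - L (0, 0) := by
      intro m
      induction m using Int.induction_on with
      | zero => rfl
      | succ i ih => rw [hstep2, ih]
      | pred i ih =>
        have := hstep2 0 (-(i : ℤ) - 1)
        rw [sub_add_cancel] at this
        rw [sub_add_cancel, ← this, ih]
    rw [hn, hm, zero_add]
  set α := L (1, 0) - L (0, 0) with hα
  set β := L (0, 1) - L (0, 0) with hβ
  have hfin : ∀ n m : ℤ, L (n, m) = L (0, 0) + n * α + m * β := by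
    intro n m
    have hn : ∀ m : ℤ, L (n, m) = L (0, m) + n * α := by
      intro m
      induction n using Int.induction_on with
      | zero => simp
      | succ i ih =>
        have := aff0 i m
        push_cast at ih ⊢
        linarith
      | pred i ih =>
        have := aff0 (-(i : ℤ) - 1) m
        rw [sub_add_cancel] at this
        push_cast at ih ⊢
        linarith
    have hm : L (0, m) = L (0, 0) + m * β := by
      induction m using Int.induction_on with
      | zero => simp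
      | succ i ih =>
        have := aff1 0 i
        push_cast at ih ⊢
        linarith
      | pred i ih =>
        have := aff1 0 (-(i : ℤ) - 1)
        rw [sub_add_cancel] at this
        push_cast at ih ⊢
        linarith
    rw [hn m, hm]
    ring
  refine ⟨exp α, exp β, exp (L (0, 0)), exp_pos _, exp_pos _, exp_pos _, fun n m => ?_⟩
  have h1 : R (n, m) = exp (L (n, m)) := by simp only [hL]; rw [exp_log (hpos _)]
  have hz : ∀ (x : ℝ) (k : ℤ), exp (k * x) = exp x ^ k := by
    intro x k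
    rw [mul_comm, exp_mul, rpow_intCast]
  rw [h1, hfin, exp_add, exp_add, hz, hz]

end Pool.Agent.U333.Doyle
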