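import Mathlib

/-!
# Flowers of six circles: winding number and the ring lemma

For a flower with centre radius `r` and petals `a k`, put `s k = √(a k / (r + a k))` and let `x k` be
half of the angle at the centre between the petals `k` and `k + 1`. Then `sin (x k) = s k * s (k+1)`,
and two petals at angle `2 y` have disjoint interiors iff `s j * s k ≤ |sin y|`.
-/

namespace Pool.Agent.U333.Doyle

open Real

/-- The data of a univalent flower of six petals in terms of half angles. -/
structure HalfFlower (s x : Fin 6 → ℝ) : Prop where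
  s_pos : ∀ k, 0 < s k
  s_lt : ∀ k, s k < 1
  x_pos : ∀ k, 0 < x k
  x_lt : ∀ k, x k < π / 2
  sin_x : ∀ k, sin (x k) = s k * s (k + 1)
  h2 : ∀ k, s k * s (k + 2) ≤ |sin (x k + x (k + 1))|
  h3 : ∀ k, s k * s (k + 3) ≤ |sin (x k + x (k + 1) + x (k + 2))|
  h4 : ∀ k, s k * s (k + 4) ≤ |sin (x k + x (k + 1) + x (k + 2) + x (k + 3))|
  sum : ∃ n : ℤ, ∑ k, x k = n * π

theorem sum_rot (f : Fin 6 → ℝ) (k : Fin 6) :
    ∑ j, f j = f k + f (k + 1) + f (k + 2) + f (k + 3) + f (k + 4) + f (k + 5) := by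
  rw [Fin.sum_univ_six]
  fin_cases k <;> simp [Fin.add_def] <;> ring

theorem no_cover {u w a b c : ℝ} (hu : 0 < u) (hw : 0 < w) (huw : u + w < π / 2)
    (ha : 0 < a) (h1 : c * a ≤ sin u) (h2 : sin (u + w) = a * b) (hbc : b ≤ c) : False := by
  have h3 : sin u < sin (u + w) := sin_lt_sin_of_lt_of_le_pi_div_two (by linarith) huw.le
    (by linarith)
  rw [h2] at h3
  nlinarith

theorem HalfFlower.sum_eq {s x : Fin 6 → ℝ} (h : HalfFlower s x) : ∑ k, x k = π := by
  obtain ⟨n, hn⟩ := h.sum
  have hpi := pi_pos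
  have hs := sum_rot x 0
  have hpos : 0 < ∑ k, x k := by
    rw [hs]
    have := h.x_pos 0; have := h.x_pos (0+1); have := h.x_pos (0+2)
    have := h.x_pos (0+3); have := h.x_pos (0+4); have := h.x_pos (0+5)
    linarith
  have hlt : ∑ k, x k < 3 * π := by
    rw [hs]
    have := h.x_lt 0; have := h.x_lt (0+1); have := h.x_lt (0+2)
    have := h.x_lt (0+3); have := h.x_lt (0+4); have := h.x_lt (0+5)
    linarith
  have hn1 : 0 < n := by
    rw [hn] at hpos
    have : (0 : ℝ) < n := by
      by_contra hc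
      push Not at hc
      nlinarith
    exact_mod_cast this
  have hn3 : n < 3 := by
    rw [hn] at hlt
    have : (n : ℝ) < 3 := by
      by_contra hc
      push Not at hc
      nlinarith
    exact_mod_cast this
  have hcase : n = 1 ∨ n = 2 := by omega
  rcases hcase with rfl | rfl
  · rw [hn]; simp
  exfalso
  obtain ⟨k, -, hk⟩ := Finset.exists_max_image Finset.univ s ⟨0, Finset.mem_univ _⟩
  have hmax : ∀ j, s j ≤ s k := fun j => hk j (Finset.mem_univ _)
  have hS := sum_rot x k
  rw [hn] at hS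
  push_cast at hS
  have p0 := h.x_pos k; have p1 := h.x_pos (k+1); have p2 := h.x_pos (k+2)
  have p3 := h.x_pos (k+3); have p4 := h.x_pos (k+4); have p5 := h.x_pos (k+5)
  have l0 := h.x_lt k; have l1 := h.x_lt (k+1); have l2 := h.x_lt (k+2)
  have l3 := h.x_lt (k+3); have l4 := h.x_lt (k+4); have l5 := h.x_lt (k+5)
  rcases lt_trichotomy (x k + x (k+1) + x (k+2)) π with hlt | heq | hgt
  · -- the arc between the petals `k+3` and `k+4`
    refine no_cover (u := π - (x k + x (k+1) + x (k+2)))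
      (w := x k + x (k+1) + x (k+2) + x (k+3) - π) (a := s (k+3)) (b := s (k+4)) (c := s k)
      (by linarith) (by linarith) (by linarith) (h.s_pos _) ?_ ?_ (hmax _)
    · have := h.h3 k
      rw [sin_pi_sub]
      rwa [abs_of_nonneg (sin_nonneg_of_nonneg_of_le_pi (by linarith) (by linarith))] at this
    · have := h.sin_x (k+3)
      rw [show k + 3 + 1 = k + 4 by rw [add_assoc]; rfl] at this
      rw [← this]
      congr 1
      ring
  · have := h.h3 k
    rw [heq, sin_pi, abs_zero] at this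
    have := mul_pos (h.s_pos k) (h.s_pos (k+3))
    linarith
  · refine no_cover (u := π - (x k + x (k+1)))
      (w := x k + x (k+1) + x (k+2) - π) (a := s (k+2)) (b := s (k+3)) (c := s k)
      (by linarith) (by linarith) (by linarith) (h.s_pos _) ?_ ?_ (hmax _)
    · have := h.h2 k
      rw [sin_pi_sub]
      rwa [abs_of_nonneg (sin_nonneg_of_nonneg_of_le_pi (by linarith) (by linarith))] at this
    · have := h.sin_x (k+2)
      rw [show k + 2 + 1 = k + 3 by rw [add_assoc]; rfl] at this
      rw [← this]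
      congr 1
      ring

theorem ring_arith {δ a t b c d e : ℝ} (hδ : 0 < δ) (hδ1 : δ ≤ 1) (ha : δ ≤ a) (ha1 : a < 1)
    (ht : 0 < t) (hb : 0 < b) (hc : 0 < c) (hd : 0 < d) (he : 0 < e) (he1 : e < 1) (hb1 : b < 1)
    (h2 : a * b ≤ a * t + t * b) (h3 : a * c ≤ a * t + t * b + b * c)
    (h4 : a * d ≤ a * t + t * b + b * c + c * d)
    (h5 : 1 < a * t + t * b + b * c + c * d + d * e) : δ ^ 2 / 16 ≤ t := by
  by_contra hcon
  push Not at hcon
  have hδ2 : δ ^ 2 ≤ δ := by nlinarith
  have htd : t ≤ δ / 16 := by linarith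
  have hat : a * t ≤ t := by nlinarith
  have htb : t * b ≤ t := by nlinarith
  -- b ≤ 2 t / δ
  have hb2 : b * (δ / 2) ≤ t := by
    have h6 : b * (δ / 2) ≤ b * (a - t) := by
      apply mul_le_mul_of_nonneg_left _ hb.le
      linarith
    linarith [mul_comm a b, mul_comm t b, mul_sub b a t]
  have hb8 : b < δ / 8 := by
    have : b * (δ / 2) < (δ / 8) * (δ / 2) := by linarith [sq δ, mul_comm (δ / 8) (δ / 2)]
    exact lt_of_mul_lt_mul_right this (by positivity)
  have hc4 : c * (δ / 2) ≤ 2 * t := by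
    have h6 : c * (δ / 2) ≤ c * (a - b) := by
      apply mul_le_mul_of_nonneg_left _ hc.le
      linarith
    linarith [mul_comm a c, mul_comm b c, mul_sub c a b]
  have hc8 : c < δ / 4 := by
    have : c * (δ / 2) < (δ / 4) * (δ / 2) := by linarith [sq δ, mul_comm (δ / 8) (δ / 2)]
    exact lt_of_mul_lt_mul_right this (by positivity)
  have hc1 : c < 1 := by linarith
  have hbc : b * c ≤ b := by nlinarith
  have hd1 : d * (δ / 2) ≤ 2 * t + b := by
    have h6 : d * (δ / 2) ≤ d * (a - c) := by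
      apply mul_le_mul_of_nonneg_left _ hd.le
      linarith
    linarith [mul_comm a d, mul_comm c d, mul_sub d a c]
  have hd2 : d < 1 / 2 := by
    have h7 : d * (δ / 2) * (δ / 2) ≤ (2 * t + b) * (δ / 2) :=
      mul_le_mul_of_nonneg_right hd1 (by positivity)
    have h8 : (2 * t + b) * (δ / 2) ≤ 2 * t := by
      have : t * δ ≤ t * 1 := mul_le_mul_of_nonneg_left hδ1 ht.le
      linarith [add_mul (2 * t) b (δ / 2)]
    have h9 : d * (δ / 2 * (δ / 2)) < (1 / 2) * (δ / 2 * (δ / 2)) := by
      linarith [mul_assoc d (δ / 2) (δ / 2), sq δ]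
    exact lt_of_mul_lt_mul_right h9 (by positivity)
  have e4 : c * d ≤ 1 / 8 := by
    have : c * d ≤ (1 / 4) * (1 / 2) := mul_le_mul (by linarith) hd2.le hd.le (by norm_num)
    linarith
  have e5 : d * e ≤ 1 / 2 := by
    have : d * e ≤ (1 / 2) * 1 := mul_le_mul hd2.le he1.le he.le (by norm_num)
    linarith
  linarith

theorem abs_sin_add_le (a b : ℝ) : |sin (a + b)| ≤ |sin a| + |sin b| := by
  rw [sin_add]
  refine (abs_add_le _ _).trans ?_
  rw [abs_mul, abs_mul]
  have h1 := abs_cos_le_one a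
  have h2 := abs_cos_le_one b
  have h3 := abs_nonneg (sin a)
  have h4 := abs_nonneg (sin b)
  nlinarith

theorem le_sin' {x : ℝ} (h0 : 0 ≤ x) (h1 : x ≤ π / 2) : x ≤ π / 2 * sin x := by
  have h := mul_le_sin h0 h1
  have hpi := pi_pos
  have : π / 2 * (2 / π * x) = x := by field_simp
  calc x = π / 2 * (2 / π * x) := this.symm
    _ ≤ _ := by gcongr

theorem HalfFlower.step {s x : Fin 6 → ℝ} (h : HalfFlower s x) {δ : ℝ} (hδ : 0 < δ)
    (hδ1 : δ ≤ 1) (k : Fin 6) (hk : δ ≤ s k) : δ ^ 2 / 16 ≤ s (k + 1) := by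
  have hpi := pi_pos
  have hS := sum_rot x k
  rw [h.sum_eq] at hS
  have q0 := h.sin_x k
  have q1 : sin (x (k+1)) = s (k+1) * s (k+2) := by
    have := h.sin_x (k+1)
    rwa [show k + 1 + 1 = k + 2 by rw [add_assoc]; rfl] at this
  have q2 : sin (x (k+2)) = s (k+2) * s (k+3) := by
    have := h.sin_x (k+2)
    rwa [show k + 2 + 1 = k + 3 by rw [add_assoc]; rfl] at this
  have q3 : sin (x (k+3)) = s (k+3) * s (k+4) := by
    have := h.sin_x (k+3)
    rwa [show k + 3 + 1 = k + 4 by rw [add_assoc]; rfl] at this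
  have q4 : sin (x (k+4)) = s (k+4) * s (k+5) := by
    have := h.sin_x (k+4)
    rwa [show k + 4 + 1 = k + 5 by rw [add_assoc]; rfl] at this
  have key : ∀ j, |sin (x j)| = sin (x j) := fun j =>
    abs_of_nonneg (sin_nonneg_of_nonneg_of_le_pi (h.x_pos j).le (by linarith [h.x_lt j]))
  refine ring_arith (a := s k) (t := s (k+1)) (b := s (k+2)) (c := s (k+3)) (d := s (k+4))
    (e := s (k+5)) hδ hδ1 hk (h.s_lt _) (h.s_pos _) (h.s_pos _) (h.s_pos _) (h.s_pos _)
    (h.s_pos _) (h.s_lt _) (h.s_lt _) ?_ ?_ ?_ ?_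
  · rw [← q0, ← q1, ← key k, ← key (k+1)]
    exact (h.h2 k).trans (abs_sin_add_le _ _)
  · rw [← q0, ← q1, ← q2, ← key k, ← key (k+1), ← key (k+2)]
    refine (h.h3 k).trans ((abs_sin_add_le _ _).trans ?_)
    have := abs_sin_add_le (x k) (x (k+1))
    linarith
  · rw [← q0, ← q1, ← q2, ← q3, ← key k, ← key (k+1), ← key (k+2), ← key (k+3)]
    refine (h.h4 k).trans ((abs_sin_add_le _ _).trans ?_)
    have := abs_sin_add_le (x k) (x (k+1))
    have := abs_sin_add_le (x k + x (k+1)) (x (k+2))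
    linarith
  · rw [← q0, ← q1, ← q2, ← q3, ← q4]
    have g : ∀ j, x j ≤ π / 2 * sin (x j) := fun j => le_sin' (h.x_pos j).le (h.x_lt j).le
    have g0 := g k; have g1 := g (k+1); have g2 := g (k+2); have g3 := g (k+3)
    have g4 := g (k+4)
    have l5 := h.x_lt (k+5)
    have : π / 2 * 1 < π / 2 * (sin (x k) + sin (x (k+1)) + sin (x (k+2)) + sin (x (k+3)) +
      sin (x (k+4))) := by linarith
    exact lt_of_mul_lt_mul_left this (by positivity)

/-- The constants of the ring lemma. -/
noncomputable def del : ℕ → ℝ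
  | 0 => 1 / 2
  | n + 1 => del n ^ 2 / 16

theorem del_pos : ∀ n, 0 < del n
  | 0 => by norm_num [del]
  | n + 1 => by
    have := del_pos n
    unfold del
    positivity

theorem del_le : ∀ n, del n ≤ 1
  | 0 => by norm_num [del]
  | n + 1 => by
    have h1 := del_pos n
    have h2 := del_le n
    unfold del
    nlinarith

theorem del_anti (n : ℕ) : del (n + 1) ≤ del n := by
  have h1 := del_pos n
  have h2 := del_le n
  change del n ^ 2 / 16 ≤ del n
  nlinarith

theorem del_five_le : ∀ n ≤ 5, del 5 ≤ del n := by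
  have h : Antitone del := antitone_nat_of_succ_le del_anti
  intro n hn
  exact h hn

/-- **Ring lemma.** -/
theorem HalfFlower.ring {s x : Fin 6 → ℝ} (h : HalfFlower s x) : ∀ k, del 5 ≤ s k := by
  have hpi := pi_pos
  have hS := h.sum_eq
  obtain ⟨k, hk⟩ : ∃ k, π / 6 ≤ x k := by
    by_contra hcon
    push Not at hcon
    have := Fin.sum_univ_six x
    rw [hS] at this
    have := hcon 0; have := hcon 1; have := hcon 2; have := hcon 3; have := hcon 4
    have := hcon 5
    linarith
  have hk0 : del 0 ≤ s k := by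
    have h1 : sin (π / 6) ≤ sin (x k) :=
      sin_le_sin_of_le_of_le_pi_div_two (by linarith) (h.x_lt k).le hk
    rw [sin_pi_div_six, h.sin_x] at h1
    have := h.s_lt (k+1)
    have := h.s_pos (k+1)
    have := h.s_pos k
    change 1 / 2 ≤ s k
    nlinarith
  have a1 := h.step (del_pos 0) (del_le 0) _ hk0
  have a2 := h.step (del_pos 1) (del_le 1) _ a1
  have a3 := h.step (del_pos 2) (del_le 2) _ a2
  have a4 := h.step (del_pos 3) (del_le 3) _ a3
  have a5 := h.step (del_pos 4) (del_le 4) _ a4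
  have all : ∀ k j : Fin 6, j = k ∨ j = k + 1 ∨ j = k + 1 + 1 ∨ j = k + 1 + 1 + 1 ∨
      j = k + 1 + 1 + 1 + 1 ∨ j = k + 1 + 1 + 1 + 1 + 1 := by decide
  intro j
  rcases all k j with rfl | rfl | rfl | rfl | rfl | rfl
  · exact (del_five_le 0 (by omega)).trans hk0
  · exact (del_five_le 1 (by omega)).trans a1
  · exact (del_five_le 2 (by omega)).trans a2
  · exact (del_five_le 3 (by omega)).trans a3
  · exact (del_five_le 4 (by omega)).trans a4
  · exact (del_five_le 5 (by omega)).trans a5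

end Pool.Agent.U333.Doyle
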